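import Pool.Agent.Q23.SemiringExtMain

/-!
# The absorbing-element extension of a finitely based semiring is finitely based

The definitions `IsSemiring`, `Term`, `Term.eval`, `Holds`, `FinitelyBased` and `Ext` are in
`Pool/Agent/Q23/SemiringExt.lean`, the proof is in `Pool/Agent/Q23/SemiringExtMain.lean`.
-/

universe u

namespace Pool.Agent.Results.MP_cd9307_al.FinitelyBasedExtension

open Pool.Agent.Q23.SemiringExt

theorem result (S : Type u) [Add S] [Mul S] [Nonempty S] (hS : IsSemiring S)
    (h : FinitelyBased S) : FinitelyBased (Ext S) := by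
  obtain ⟨E, hE1, hE2⟩ := h
  exact ⟨basis E, fun e he => holds_ext_of_regular (basis_holds hS hE1 e he)
    (basis_regular E e he), fun A _ _ hA e he => main hE2 A hA e (holds_of_ext he)
    (content_eq_of_ext he)⟩

end Pool.Agent.Results.MP_cd9307_al.FinitelyBasedExtension
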